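import Pool.Agent.Helper95.CF.Stmts
import Pool.Agent.Helper22.LN.EB

/-!
# Row EBN: the trial atoms have negative energy
-/

set_option autoImplicit false

namespace Pool.Agent.Helper22.CF

open MeasureTheory Filter Pool.Agent.Helper95.PW Pool.Agent.Helper95.LN Pool.Agent.Helper95.CF
open Pool.Agent.Helper22.LN

theorem et_nn (a : ℝ) (ha : 0 ≤ a) (y : R3) : 0 ≤ et a y := by
  have hcb : 0 ≤ cb := intervalIntegral.integral_nonneg (by norm_num) fun _ _ => sq_nonneg _
  unfold et
  have h1 : 0 ≤ nr y := nr_nn y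
  positivity

theorem kap_pos (h2 : ST_ORB) : 0 < kap := by
  have h1 : 0 ≤ kap := integral_nonneg fun y => et_nn 1 zero_le_one y
  exact lt_of_le_of_ne h1 (kap_ne h2).symm

theorem cnt_lt (Z m : ℕ) (h : m < Z) :
    (∑ i : Fin Z, if m < (i : ℕ) then (1 : ℝ) else 0) = (Z : ℝ) - 1 - m := by
  rw [Fin.sum_univ_eq_sum_range (fun i => if m < i then (1 : ℝ) else 0) Z, Finset.sum_boole]
  have h1 : (Finset.range Z).filter (fun i => m < i) = Finset.Ioo m Z := by
    ext i
    simp only [Finset.mem_filter, Finset.mem_range, Finset.mem_Ioo]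
    exact and_comm
  rw [h1, Nat.card_Ioo, Nat.sub_sub, Nat.cast_sub h]
  push_cast
  ring

/-- sums over the electrons -/
theorem sum_el2 {M : ℕ} (Z : Fin M → ℕ) (F : Fin M → ℕ → ℝ) :
    ∑ k : Fin (∑ j, Z j), F (finSigmaFinEquiv.symm k).1 ((finSigmaFinEquiv.symm k).2 : ℕ) =
      ∑ j, ∑ i : Fin (Z j), F j i := by
  rw [Equiv.sum_comp (finSigmaFinEquiv (n := Z)).symm
    (fun p : (Σ j : Fin M, Fin (Z j)) => F p.1 (p.2 : ℕ)), Fintype.sum_sigma]

/-- row EBN -/
theorem EBN (h1 : ST_TRE) (h2 : ST_ORB) (h3 : ST_PT1) (h4 : ST_PT2) (h5 : ST_PT3) : ST_EBN := by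
  have hkp := kap_pos h2
  have hk := hkp.ne'
  obtain ⟨Co, hCo, ho⟩ := h2
  intro z hz
  set N : ℕ := ⌈z⌉₊ with hN
  set R : ℝ := 2 * Co * 4 ^ N with hR
  have hR0 : 0 < R := by positivity
  refine ⟨2 * R, 1 / (2 * R), by positivity, by positivity, ?_⟩
  intro n M X Z E hS hn hZ hL
  subst hn
  set J : Fin (∑ j, Z j) → Fin M := fun k => (finSigmaFinEquiv.symm k).1 with hJ
  set m : Fin (∑ j, Z j) → ℕ := fun k => ((finSigmaFinEquiv.symm k).2 : ℕ) with hm
  set a : Fin (∑ j, Z j) → ℝ := fun k => R / 4 ^ m k with ha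
  set f : Fin (∑ j, Z j) → R3 → ℝ := fun k y => orb (a k) (y - X (J k)) with hf
  have ha0 : ∀ k, 0 < a k := fun k => by
    simp only [ha]
    positivity
  have had : ∀ k, a k ≤ R := fun k => by
    simp only [ha]
    exact div_le_self (by positivity) (one_le_pow₀ (by norm_num))
  have hmZ : ∀ k, m k < Z (J k) := fun k => (finSigmaFinEquiv.symm k).2.isLt
  have hmN : ∀ k, m k ≤ N := fun k => by
    have h5 : ((m k : ℕ) : ℝ) ≤ z := by
      refine le_trans ?_ (hZ (J k))
      exact_mod_cast (hmZ k).le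
    rw [hN]
    exact_mod_cast h5.trans (Nat.le_ceil z)
  have hinj : ∀ k l, J k = J l → m k = m l → k = l := by
    intro k l hJk hmk
    apply finSigmaFinEquiv.symm.injective
    refine Sigma.ext hJk ?_
    rw [Fin.heq_ext_iff (by simp only [hJ] at hJk; rw [hJk])]
    exact hmk
  have hlt : ∀ k l, J k = J l → m k < m l → a l ≤ a k / 4 := by
    intro k l _ hml
    simp only [ha]
    rw [div_div R (4 ^ m k) 4, ← pow_succ]
    exact div_le_div_of_nonneg_left (by positivity) (by positivity)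
      (pow_le_pow_right₀ (by norm_num) hml)
  have hf2 : ∀ k y, f k y ^ 2 = et (a k) (y - X (J k)) / kap := fun k y =>
    (ho (a k) (ha0 k)).2.2.2.1 _
  have hsup : ∀ k y, y ∈ tsupport (f k) → a k / 2 ≤ nr (y - X (J k)) ∧ nr (y - X (J k)) ≤ a k :=
    fun k y hy => (ho (a k) (ha0 k)).2.2.1 _ (tsup_tr _ _ _ hy)
  have hdis : ∀ i j y, y ∈ tsupport (f i) → y ∈ tsupport (f j) → i = j := by
    intro i j y hi hj
    obtain ⟨i1, i2⟩ := hsup i y hi
    obtain ⟨j1, j2⟩ := hsup j y hj
    have hJJ : J i = J j := by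
      by_contra hne
      have h5 := hS _ _ hne
      have h6 := nr_sub_le (X (J i)) (X (J j)) y
      have h7 := had i
      have h8 := had j
      linarith
    rw [hJJ] at i1 i2
    rcases lt_trichotomy (m i) (m j) with h5 | h5 | h5
    · have h6 := hlt i j hJJ h5
      have h7 := ha0 i
      linarith
    · exact hinj i j hJJ h5
    · have h6 := hlt j i hJJ.symm h5
      have h7 := ha0 j
      linarith
  obtain ⟨ψ, hψ, hA, hpos, hkin, hpair, hone⟩ := h1 _ f
    (fun k => (ho (a k) (ha0 k)).1.comp (contDiff_id.sub contDiff_const))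
    (fun k => cs_tr _ _ (ho (a k) (ha0 k)).2.1) hdis
    (fun k => by
      have h5 := integral_sub_right_eq_self (μ := volume) (fun y : R3 => orb (a k) y ^ 2) (X (J k))
      simp only [hf]
      rw [h5]
      exact (ho (a k) (ha0 k)).2.2.2.2.1)
  have hLo := hL ψ hψ hA
  unfold QM at hLo
  rw [hkin, hpair, hone M X (fun j => (Z j : ℝ)), ← mul_add, ← mul_sub, mul_comm E,
    mul_le_mul_iff_right₀ hpos] at hLo
  -- the own attraction
  set A : Fin (∑ j, Z j) → ℝ := fun l => 1 / kap *
    ∫ y, et (a l) (y - X (J l)) / nr (y - X (J l)) with hAd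
  have hAa : ∀ l, 1 / a l ≤ A l := by
    intro l
    have h6 := (h5 (a l) (a l) (X (J l)) (ha0 l) (ha0 l)).1
    calc 1 / a l = 1 / kap * (kap / a l) := by field_simp
      _ ≤ A l := mul_le_mul_of_nonneg_left h6 (by positivity)
  have hA0 : ∀ l, 0 < A l := fun l => lt_of_lt_of_le (by have := ha0 l; positivity) (hAa l)
  -- kinetic energy
  have hkb : ∀ l, ∑ i, ∫ y, pd i (f l) y ^ 2 ≤ Co / a l ^ 2 := by
    intro l
    have h6 : ∀ i, ∫ y, pd i (f l) y ^ 2 = ∫ y, pd i (orb (a l)) y ^ 2 := by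
      intro i
      rw [← integral_sub_right_eq_self (μ := volume) (fun y : R3 => pd i (orb (a l)) y ^ 2)
        (X (J l))]
      congr 1
      funext y
      simp only [hf]
      rw [pd_tr]
    simp only [h6]
    exact (ho (a l) (ha0 l)).2.2.2.2.2
  have hnet : ∀ l, (∑ i, ∫ y, pd i (f l) y ^ 2) - (m l + 1) * A l ≤ -(1 / (2 * R)) := by
    intro l
    have e1 : Co / a l ^ 2 ≤ 1 / 2 * (1 / a l) := by
      have e2 : Co / a l ≤ 1 / 2 := by
        simp only [ha]
        rw [div_div_eq_mul_div, div_le_iff₀ hR0, hR]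
        have : (4 : ℝ) ^ m l ≤ 4 ^ N := pow_le_pow_right₀ (by norm_num) (hmN l)
        nlinarith
      have e3 : Co / a l ^ 2 = Co / a l * (1 / a l) := by
        rw [pow_two]
        field_simp
      rw [e3]
      have := ha0 l
      exact mul_le_mul_of_nonneg_right e2 (by positivity)
    have e4 : A l ≤ (m l + 1) * A l := by
      have : (0 : ℝ) ≤ m l := Nat.cast_nonneg _
      nlinarith [hA0 l]
    have e5 : 1 / R ≤ 1 / a l := one_div_le_one_div_of_le (ha0 l) (had l)
    have e6 := hkb l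
    have e7 := hAa l
    have e8 : 1 / (2 * R) = 1 / 2 * (1 / R) := by ring
    rw [e8]
    linarith
  -- the attraction
  have hat : ∀ l j, ∫ y, f l y ^ 2 / nr (y - X j) =
      Gm X (J l) j + if J l = j then A l else 0 := by
    intro l j
    have h8 : ∀ y, f l y ^ 2 / nr (y - X j) =
        1 / kap * (et (a l) (y - X (J l)) / nr (y - X j)) := by
      intro y
      rw [hf2]
      ring
    simp only [h8]
    rw [integral_const_mul]
    unfold Gm
    by_cases h5 : J l = j
    · rw [if_pos h5, if_pos h5, ← h5, zero_add]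
    · rw [if_neg h5, if_neg h5, add_zero]
      have h6 : 2 * a l ≤ nr (X j - X (J l)) := by
        have h7 := hS j (J l) (fun h => h5 h.symm)
        have h8 := had l
        linarith
      rw [h3 (a l) (X j) (X (J l)) (ha0 l) h6, nr_comm (X j)]
      field_simp
  have hatt : ∑ l, ∑ j, (Z j : ℝ) * ∫ y, f l y ^ 2 / nr (y - X j) =
      2 * nucR X (fun j => (Z j : ℝ)) + ∑ l, (Z (J l) : ℝ) * A l := by
    have h5 : 2 * nucR X (fun j => (Z j : ℝ)) = ∑ l, ∑ j, (Z j : ℝ) * Gm X (J l) j := by
      rw [← nucR_eq, sum_el Z (fun i => ∑ j, (Z j : ℝ) * Gm X i j)]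
      refine Finset.sum_congr rfl fun i _ => ?_
      rw [Finset.mul_sum]
      exact Finset.sum_congr rfl fun j _ => by ring
    rw [h5, ← Finset.sum_add_distrib]
    refine Finset.sum_congr rfl fun l _ => ?_
    simp only [hat, mul_add, Finset.sum_add_distrib, mul_ite, mul_zero, Finset.sum_ite_eq,
      Finset.mem_univ, if_true]
  -- the repulsion
  set T : Fin (∑ j, Z j) → Fin (∑ j, Z j) → ℝ := fun k l =>
    if J k = J l ∧ m k < m l then A k else 0 with hT
  have hpp : ∀ k l, k ≠ l → ∫ x, ∫ y, f k x ^ 2 * f l y ^ 2 / nr (x - y) =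
      Gm X (J k) (J l) + (T k l + T l k) := by
    intro k l hkl
    simp only [hf2]
    rw [pairI]
    unfold Gm
    simp only [hT]
    by_cases h6 : J k = J l
    · have h7 : m k ≠ m l := fun h => hkl (hinj k l h6 h)
      rw [if_pos h6, zero_add]
      rcases lt_or_gt_of_ne h7 with h8 | h8
      · have h9 := ((h5 (a k) (a l) (X (J k)) (ha0 k) (ha0 l)).2 (hlt k l h6 h8)).1
        rw [if_pos ⟨h6, h8⟩, if_neg (fun h => absurd h.2 (not_lt.mpr h8.le)), add_zero, ← h6, h9]
        simp only [hAd]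
        field_simp
      · have h9 := ((h5 (a l) (a k) (X (J l)) (ha0 l) (ha0 k)).2 (hlt l k h6.symm h8)).2
        rw [if_neg (fun h => absurd h.2 (not_lt.mpr h8.le)), if_pos ⟨h6.symm, h8⟩, zero_add, h6,
          h9]
        simp only [hAd]
        field_simp
    · rw [if_neg h6, if_neg (fun h => h6 h.1), if_neg (fun h => h6 h.1.symm), add_zero, add_zero]
      have h7 : 3 * (a k + a l) ≤ nr (X (J k) - X (J l)) := by
        have h7 := hS _ _ h6
        have h8 := had k
        have h9 := had l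
        linarith
      rw [(h4 (a k) (a l) (X (J k)) (X (J l)) (ha0 k) (ha0 l)).1 h7]
      field_simp
  have hrep : (∑ k, ∑ l, if k < l then ∫ x, ∫ y, f k x ^ 2 * f l y ^ 2 / nr (x - y) else 0) =
      nucR X (fun j => (Z j : ℝ)) + ∑ k, ((Z (J k) : ℝ) - 1 - m k) * A k := by
    have h6 : (∑ k, ∑ l, if k < l then ∫ x, ∫ y, f k x ^ 2 * f l y ^ 2 / nr (x - y) else 0) =
        (∑ k, ∑ l, if k < l then Gm X (J k) (J l) else 0) +
          ∑ k, ∑ l, if k < l then T k l + T l k else 0 := by
      rw [← Finset.sum_add_distrib]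
      refine Finset.sum_congr rfl fun k _ => ?_
      rw [← Finset.sum_add_distrib]
      refine Finset.sum_congr rfl fun l _ => ?_
      by_cases h6 : k < l
      · rw [if_pos h6, if_pos h6, if_pos h6]
        exact hpp k l h6.ne
      · rw [if_neg h6, if_neg h6, if_neg h6, zero_add]
    have h7 : (∑ k, ∑ l, if k < l then Gm X (J k) (J l) else 0) =
        nucR X (fun j => (Z j : ℝ)) := by
      have h7 := sym_sum (fun k l => Gm X (J k) (J l)) (fun k l => Gm_symm X _ _)
        (fun k => Gm_self X _)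
      have h8 : ∑ k, ∑ l, Gm X (J k) (J l) = 2 * nucR X (fun j => (Z j : ℝ)) := by
        rw [← nucR_eq, sum_el Z (fun i => ∑ l, Gm X i (J l))]
        refine Finset.sum_congr rfl fun i _ => ?_
        rw [sum_el Z (fun j => Gm X i j), Finset.mul_sum]
        exact Finset.sum_congr rfl fun j _ => by ring
      linarith
    have h8 : (∑ k, ∑ l, if k < l then T k l + T l k else 0) = ∑ k, ∑ l, T k l := by
      have h9 := sym_sum (fun k l => T k l + T l k) (fun k l => add_comm _ _)
        (fun k => by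
          simp only [hT, lt_irrefl, and_false, if_false, add_zero])
      have h10 : ∑ k, ∑ l, (T k l + T l k) = 2 * ∑ k, ∑ l, T k l := by
        simp only [Finset.sum_add_distrib]
        rw [Finset.sum_comm (f := fun k l => T l k)]
        ring
      linarith
    have h9 : ∀ k, ∑ l, T k l = ((Z (J k) : ℝ) - 1 - m k) * A k := by
      intro k
      simp only [hT]
      rw [sum_el2 Z (fun j i => if J k = j ∧ m k < i then A k else 0)]
      rw [Finset.sum_eq_single (J k)]
      · rw [← cnt_lt (Z (J k)) (m k) (hmZ k), Finset.sum_mul]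
        refine Finset.sum_congr rfl fun i _ => ?_
        by_cases h10 : m k < (i : ℕ)
        · rw [if_pos ⟨rfl, h10⟩, if_pos h10, one_mul]
        · rw [if_neg (fun h => h10 h.2), if_neg h10, zero_mul]
      · intro j _ hj
        refine Finset.sum_eq_zero fun i _ => ?_
        rw [if_neg (fun h => hj h.1.symm)]
      · intro h
        exact absurd (Finset.mem_univ _) h
    rw [h6, h7, h8]
    congr 1
    exact Finset.sum_congr rfl fun k _ => h9 k
  rw [hrep, hatt] at hLo
  have hsum : ∑ l, ((∑ i, ∫ y, pd i (f l) y ^ 2) - (m l + 1) * A l) ≤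
      ∑ _l : Fin (∑ j, Z j), -(1 / (2 * R)) := Finset.sum_le_sum fun l _ => hnet l
  rw [Finset.sum_const, Finset.card_univ, Fintype.card_fin, nsmul_eq_mul,
    Finset.sum_sub_distrib] at hsum
  have hcomb : ∑ k, ((Z (J k) : ℝ) - 1 - m k) * A k - ∑ l, (Z (J l) : ℝ) * A l =
      -∑ l, ((m l : ℝ) + 1) * A l := by
    rw [← Finset.sum_sub_distrib, ← Finset.sum_neg_distrib]
    exact Finset.sum_congr rfl fun k _ => by ring
  have hfin : E + nucR X (fun j => (Z j : ℝ)) ≤ -(1 / (2 * R) * ((∑ j, Z j : ℕ) : ℝ)) := by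
    linarith
  exact hfin

end Pool.Agent.Helper22.CF
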